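import Pool.Agent.J6H55.MA.Stm

/-!
# Infixes of flattened lists
-/

set_option autoImplicit false

namespace Pool.Agent.J6H55.MA

/-- an infix of `a ++ b` -/
lemma infix_cases {w a b : List Bool} (h : w <:+: a ++ b) :
    w <:+: a ∨ w <:+: b ∨ ∃ w₁ w₂, w = w₁ ++ w₂ ∧ w₁ <:+ a ∧ w₂ <+: b := by
  obtain ⟨s, t, h⟩ := h
  rw [List.append_assoc] at h
  rcases List.append_eq_append_iff.1 h with ⟨c, h1, h2⟩ | ⟨c, h1, h2⟩
  · -- `a = s ++ c`, `w ++ t = c ++ b`
    rcases List.append_eq_append_iff.1 h2 with ⟨d, h3, h4⟩ | ⟨d, h3, h4⟩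
    · -- `c = w ++ d`
      exact Or.inl ⟨s, d, by rw [h1, h3, List.append_assoc]⟩
    · -- `w = c ++ d`
      exact Or.inr (Or.inr ⟨c, d, h3, ⟨s, h1.symm⟩, ⟨t, h4.symm⟩⟩)
  · -- `s = a ++ c`
    exact Or.inr (Or.inl ⟨c, t, by rw [h2, List.append_assoc]⟩)

lemma Lev.ex {W : Set (List Bool)} {K M : ℕ} (h : Lev W K M) : ∃ v ∈ W, 1 ≤ M := by
  obtain ⟨v, hv, _⟩ := h.two
  have h1 := h.pos
  have h2 := h.lo v hv
  have h3 := h.hi v hv
  exact ⟨v, hv, by omega⟩

theorem in1 : S_in1 := by
  intro W K M hL w hw hK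
  obtain ⟨s, ⟨l, hl, rfl⟩, hw⟩ := hw
  obtain ⟨v₀, hv₀, hM⟩ := hL.ex
  induction l with
  | nil =>
    rw [List.flatten_nil, List.infix_nil] at hw
    exact ⟨v₀, hv₀, v₀, hv₀, hw ▸ List.nil_infix⟩
  | cons v l ih =>
    have hv : v ∈ W := hl v List.mem_cons_self
    have hl' : ∀ u ∈ l, u ∈ W := fun u hu => hl u (List.mem_cons_of_mem _ hu)
    rw [List.flatten_cons] at hw
    rcases infix_cases hw with h | h | ⟨w₁, w₂, h1, h2, h3⟩
    · exact ⟨v, hv, v, hv, h.trans (List.infix_append' [] v v |>.trans (by simp))⟩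
    · exact ih hl' h
    · cases l with
      | nil =>
        rw [List.flatten_nil, List.prefix_nil] at h3
        rw [h3, List.append_nil] at h1
        exact ⟨v, hv, v, hv, h1 ▸ h2.isInfix.trans (List.prefix_append v v).isInfix⟩
      | cons v' l =>
        have hv' : v' ∈ W := hl' v' List.mem_cons_self
        rw [List.flatten_cons] at h3
        have h4 : w₂ <+: v' := by
          refine List.prefix_of_prefix_length_le h3 (List.prefix_append _ _) ?_
          have h5 := hL.lo v' hv'
          rw [h1, List.length_append] at hK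
          omega
        obtain ⟨a, ha⟩ := h2
        obtain ⟨b, hb⟩ := h4
        exact ⟨v, hv, v', hv', a, b, by rw [h1, ← ha, ← hb]; simp only [List.append_assoc]⟩

theorem in2 : S_in2 := by
  intro W K M hL w hw hK
  obtain ⟨s, ⟨l, hl, rfl⟩, hw⟩ := hw
  obtain ⟨v₀, hv₀, hM⟩ := hL.ex
  induction l with
  | nil =>
    rw [List.flatten_nil, List.infix_nil] at hw
    rw [hw, List.length_nil] at hK
    omega
  | cons v l ih =>
    have hv : v ∈ W := hl v List.mem_cons_self
    have hl' : ∀ u ∈ l, u ∈ W := fun u hu => hl u (List.mem_cons_of_mem _ hu)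
    rw [List.flatten_cons] at hw
    rcases infix_cases hw with h | h | ⟨w₁, w₂, h1, h2, h3⟩
    · have h4 := h.length_le
      have h5 := hL.hi v hv
      omega
    · exact ih hl' h
    · have h6 : M ≤ w₂.length := by
        have h4 := h2.length_le
        have h5 := hL.hi v hv
        rw [h1, List.length_append] at hK
        omega
      cases l with
      | nil =>
        rw [List.flatten_nil, List.prefix_nil] at h3
        rw [h3, List.length_nil] at h6
        omega
      | cons v' l =>
        have hv' : v' ∈ W := hl' v' List.mem_cons_self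
        rw [List.flatten_cons] at h3
        have h4 : v' <+: w₂ :=
          List.prefix_of_prefix_length_le (List.prefix_append _ _) h3 ((hL.hi v' hv').trans h6)
        exact ⟨v', hv', h1 ▸ h4.isInfix.trans (List.suffix_append w₁ w₂).isInfix⟩

end Pool.Agent.J6H55.MA
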